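import Pool.Agent.Results.MP_6e1a06_nt.BackwardOrbits
import Pool.Agent.Run7.h383.DM.Fam
import Pool.Agent.Run7.h866.ZP.Rad

/-!
# MP_295d38_ag: the dynamical Mordell-Lang conjecture for families with one preperiodic member, for
all but finitely many parameters in a backward orbit

**Families** (as in the starting file `AlgebraicPreperiodicMembers`). Let `F_{t,0}, …, F_{t,N}` be
forms of degree `d` in `N + 1` variables, let `x(t)` be a point with coordinates
`x_0(t), …, x_N(t)`, and let `V_t ⊂ ℙ^N` be the closed set defined by forms `G_{t,k}`, `k ∈ κ` (`κ`
finite), all coefficients being complex polynomials in `t`. So `F_t` is a one-parameter family of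
rational self-maps of `ℙ^N`. It can be a family of endomorphisms of `ℙ^N`, a family of polynomial
self-maps of the affine space (`F_{t,0} = X_0^d`), hence of an affine variety, or be constant. For
`t ∈ ℂ` let `R_t` be the set of the `n` such that the `n`-th iterate of `x(t)` is a point of `V_t`
(`returns`).

**Parameters.** Let `φ_1, …, φ_r` and `g` be polynomials with integral coefficients such that all the
composites `g ∘ φ_{i_1} ∘ … ∘ φ_{i_m}` are irreducible, and `deg g · deg φ_i ≥ 2` for all `i`
(`IrreducibleComposites`). The backward orbit of the roots of `g` is the set of the complex numbers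
`t` with `g (φ_{i_1} (… (φ_{i_m} (t)))) = 0` for some word `i_1 … i_m` (`InBackwardOrbit`); for
`r = 1` and `g = X - β` these are the iterated preimages of `β` under a polynomial map. These are
algebraic numbers of unbounded degree. A rational number `α` is called wandering if for every `y`
there are only finitely many words with `φ_{i_1} (… (φ_{i_m} (α))) = y` (for `r = 1`: `α` is not
preperiodic under `φ_1`) (`Wandering`).

**Theorem.** Let `α_1, …, α_M` be wandering rational numbers such that for all `l` the orbit of
`x(α_l)` under `F_{α_l}` is defined (no iterate is zero) and finite (in `ℙ^N`). Suppose that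

* the intersection of the sets `R_{α_1}, …, R_{α_M}` is finite, or
* for some `l` the matrix of the partial derivatives of the `F_{α_l, i}` is invertible at the
  iterates of `x(α_l)` from some index on (that is, `F_{α_l}` is étale at the points of the cycle).

Then all but finitely many numbers `t` in the backward orbit have the following properties: the orbit
of `x(t)` under `F_t` is defined, `R_t` is a finite union of arithmetic progressions, and
`R_t ⊆ R_{α_l}` for all `l`.

So the dynamical Mordell-Lang conjecture holds for these `F_t`, `x(t)`, `V_t`, in a uniform way, for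
infinitely many `t` of unbounded degree. For example (`M = 1`) let `F` be any endomorphism of `ℙ^N`
over `ℂ`, let `P` be a preperiodic point, let `x(t)` be a rational curve with `x(3) = P`, and let `V`
be a closed set which does not meet the cycle of `P`. Then for all but finitely many of the numbers
`t` with `t^(2^m) = 2` for some `m` (`φ = X^2`, `g = X - 2`) the orbit of `x(t)` meets `V` only for
`n` with `F^n(P) ∈ V`. No condition on the ramification of `F` is needed.

Earlier results: in the starting files `FamiliesWithPreperiodicMembers` and
`AlgebraicPreperiodicMembers` the parameters have bounded degree (`2 δ + 1` rational numbers `α` are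
needed for degree `δ`), respectively are rational.

**The proof.** If `α` is wandering then for all but finitely many words the value at `α` of the
minimal polynomial `g ∘ φ_{i_1} ∘ … ∘ φ_{i_m}` of the parameter `t` has a prime factor `p` larger than
a given number (`Pool.Agent.V1138.BO` of the starting library). Therefore there is an embedding of `ℂ`
into the algebraic closure of `ℚ_p` for which all data have good reduction and `t` is near to `α`
(`Run7.h383.DM.emb_of_near`). So the orbits of `x(t)` and of `x(α)` have the same reduction.
-/

set_option autoImplicit false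

open Polynomial Pool.Agent.H936R2 Pool.Agent.Y199.DM

namespace Pool.Agent.Results.MP_295d38_ag.BackwardOrbits

open Pool.Agent.Results.MP_295d38_ag.AlgebraicPreperiodicMembers (member start returns)
open Pool.Agent.Results.MP_6e1a06_nt.BackwardOrbits (InBackwardOrbit IrreducibleComposites
  Wandering)

variable {N : ℕ} {κ : Type}

/-- The orbit of `x(t)` under `F_t` is defined, `R_t` is a finite union of arithmetic progressions, and
`R_t ⊆ R_{α_l}` for all `l`. -/
def Uniform {M : ℕ} (F : Fin (N + 1) → MvPolynomial (Fin (N + 1)) ℂ[X]) (x : Fin (N + 1) → ℂ[X])
    (G : κ → MvPolynomial (Fin (N + 1)) ℂ[X]) (α : Fin M → ℂ) (t : ℂ) : Prop :=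
  (∀ n, (pt (member F t))^[n] (start x t) ≠ 0) ∧ IsFiniteUnionOfAP (returns F x G t) ∧
    ∀ l, returns F x G t ⊆ returns F x G (α l)

/-- **The dynamical Mordell-Lang conjecture for families with one preperiodic member, for all but
finitely many parameters in a backward orbit.** -/
theorem result [Finite κ] {d M : ℕ} (F : Fin (N + 1) → MvPolynomial (Fin (N + 1)) ℂ[X])
    (hF : ∀ i, (F i).IsHomogeneous d) (x : Fin (N + 1) → ℂ[X])
    (G : κ → MvPolynomial (Fin (N + 1)) ℂ[X]) (e : κ → ℕ) (hG : ∀ k, (G k).IsHomogeneous (e k))
    (α : Fin M → ℚ) (hpre : ∀ l, Preperiodic (member F (α l)) (start x (α l)))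
    (hR : {n : ℕ | ∀ l, n ∈ returns F x G (α l)}.Finite ∨
      ∃ l, EventuallyEtale (member F (α l)) (start x (α l)))
    (r : ℕ) (φ : Fin r → ℤ[X]) (g : ℤ[X]) (hφ : IrreducibleComposites φ g)
    (hα : ∀ l, Wandering φ (α l)) :
    {t : ℂ | InBackwardOrbit φ g t ∧ ¬ Uniform F x G (fun l => (α l : ℂ)) t}.Finite := by
  refine Run7.h383.DM.dml F hF x G e hG (fun l => ((α l : ℚ) : ℂ)) (fun l => ?_) hpre hR
    {t | InBackwardOrbit φ g t} (fun t ht => ?_) ⊥ fun l =>
      Pool.Agent.Run7.h866.ZP.hits_backward φ g hφ (α l) (hα l)
  · exact isAlgebraic_algebraMap (α l)
  · exact (Pool.Agent.V1138.BO.alg_of_backward φ g hφ.1 t ht).extendScalars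
      (Int.cast_injective (α := ℚ))

end Pool.Agent.Results.MP_295d38_ag.BackwardOrbits
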