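import Pool.Agent.Run7.h383.DM.Fam
import Pool.Agent.Run7.h866.ZP.Rec

/-!
# MP_295d38_ag: the dynamical Mordell-Lang conjecture for families with one preperiodic member, for
all but finitely many parameters in a linear recurrence sequence

**Families** (as in the starting file `AlgebraicPreperiodicMembers`). Let `F_{t,0}, …, F_{t,N}` be
forms of degree `d` in `N + 1` variables, let `x(t)` be a point with coordinates
`x_0(t), …, x_N(t)`, and let `V_t ⊂ ℙ^N` be the closed set defined by forms `G_{t,k}`, `k ∈ κ` (`κ`
finite), all coefficients being complex polynomials in `t`. So `F_t` is a one-parameter family of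
rational self-maps of `ℙ^N`. It can be a family of endomorphisms of `ℙ^N`, a family of polynomial
self-maps of the affine space (`F_{t,0} = X_0^d`), hence of an affine variety, or be constant. For
`t ∈ ℂ` let `R_t` be the set of the `n` such that the `n`-th iterate of `x(t)` is a point of `V_t`
(`returns`).

**Parameters.** Let `a(ν) = b + c_1 λ_1^ν + … + c_q λ_q^ν`, `ν ∈ ℤ`, where `b`, the `c_i ≠ 0` and the
`λ_i ≠ 0` are algebraic numbers, and no `λ_i` and no quotient `λ_i / λ_j`, `i ≠ j`, is a root of
unity (`Nondegenerate`). These are the nondegenerate linear recurrence sequences with simple roots,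
for instance the Fibonacci and Lucas numbers and `2^ν + 3^ν`.

**Theorem.** Let `α_1, …, α_M` be algebraic numbers, of arbitrary degrees, such that for all `l` the
orbit of `x(α_l)` under `F_{α_l}` is defined (no iterate is zero) and finite (in `ℙ^N`). Suppose that

* the intersection of the sets `R_{α_1}, …, R_{α_M}` is finite, or
* for some `l` the matrix of the partial derivatives of the `F_{α_l, i}` is invertible at the
  iterates of `x(α_l)` from some index on (that is, `F_{α_l}` is étale at the points of the cycle).

Let `q ≥ 2`, or `q = 1` and `b ≠ α_l` for all `l`. Then all but finitely many integers `ν` have the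
following properties, with `t = a(ν)`: the orbit of `x(t)` under `F_t` is defined, `R_t` is a finite
union of arithmetic progressions, and `R_t ⊆ R_{α_l}` for all `l`.

So the dynamical Mordell-Lang conjecture holds for these `F_t`, `x(t)`, `V_t`, in a uniform way. For
example (`M = 1`) let `F` be any endomorphism of `ℙ^N` over `ℂ`, let `P` be any preperiodic point of
`F` and let `V` be any closed set which does not meet the cycle of `P`. Then for every rational curve
`x(t)` with `x(α) = P` for some algebraic number `α`, in particular for all lines through `P`,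
suitably parametrized, and for all but finitely many `ν` the orbit of the point `x(2^ν + 3^ν)` meets
`V` only for `n` with `F^n(P) ∈ V`; so it does not meet `V` if the orbit of `P` does not meet `V`. No
condition on the ramification of `F` is needed.

Earlier results: the starting file `FamiliesWithPreperiodicMembers` needs `2 δ + 1` rational numbers
`α` for which `x(α)` is preperiodic, and has finitely many exceptions among the numbers of degree at
most `δ`. The starting file `AlgebraicPreperiodicMembers` needs one `α`, as the theorem here, and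
admits `C (log B)^s` exceptions among the integers up to `B`, so that it says nothing about sequences
of exponential growth; it has rational parameters only.

**The proof.** For all but finitely many `ν` the number `a(ν) - α_l` is not invertible in the ring
generated by `a(ν)` and a given finite set of algebraic numbers
(`Pool.Agent.Run7.h866.ZP.finite_bad_term`: the unit equation, and the finiteness of the zeros of
nondegenerate sums of exponentials). Therefore the constant coefficient of the minimal polynomial of
`a(ν) - α_l` over `ℤ` is divisible by a large prime `p`, and there is an embedding of `ℂ` into the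
algebraic closure of `ℚ_p` for which all data have good reduction and `a(ν)` is near to `α_l`
(`Run7.h383.DM.emb_of_near`). So the orbits of `x(t)` and of `x(α_l)` have the same reduction.
-/

set_option autoImplicit false

open Polynomial Pool.Agent.H936R2 Pool.Agent.Y199.DM

namespace Pool.Agent.Results.MP_295d38_ag.LinearRecurrences

open Pool.Agent.Results.MP_295d38_ag.AlgebraicPreperiodicMembers (member start returns)

variable {N : ℕ} {κ : Type}

/-- `b`, the `c i` and the `lam i` are algebraic, the `c i` and the `lam i` are not zero, and no `lam i`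
and no quotient of two different ones is a root of unity. -/
structure Nondegenerate {q : ℕ} (b : ℂ) (c lam : Fin q → ℂ) : Prop where
  alg_b : IsAlgebraic ℚ b
  alg_c : ∀ i, IsAlgebraic ℚ (c i)
  alg_lam : ∀ i, IsAlgebraic ℚ (lam i)
  c_ne : ∀ i, c i ≠ 0
  lam_ne : ∀ i, lam i ≠ 0
  not_root : ∀ i, ∀ s : ℕ, 0 < s → lam i ^ s ≠ 1
  not_quot : ∀ i j, i ≠ j → ∀ s : ℕ, 0 < s → lam i ^ s ≠ lam j ^ s

/-- The term `a(ν) = b + ∑ i, c i * lam i ^ ν` of the sequence. -/
noncomputable def term {q : ℕ} (b : ℂ) (c lam : Fin q → ℂ) (ν : ℤ) : ℂ :=
  b + ∑ i, c i * lam i ^ ν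

/-- The orbit of `x(t)` under `F_t` is defined, `R_t` is a finite union of arithmetic progressions, and
`R_t ⊆ R_{α_l}` for all `l`. -/
def Uniform {M : ℕ} (F : Fin (N + 1) → MvPolynomial (Fin (N + 1)) ℂ[X]) (x : Fin (N + 1) → ℂ[X])
    (G : κ → MvPolynomial (Fin (N + 1)) ℂ[X]) (α : Fin M → ℂ) (t : ℂ) : Prop :=
  (∀ n, (pt (member F t))^[n] (start x t) ≠ 0) ∧ IsFiniteUnionOfAP (returns F x G t) ∧
    ∀ l, returns F x G t ⊆ returns F x G (α l)

/-- **The dynamical Mordell-Lang conjecture for families with one preperiodic member, for all but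
finitely many parameters in a nondegenerate linear recurrence sequence.** -/
theorem result [Finite κ] {d M : ℕ} (F : Fin (N + 1) → MvPolynomial (Fin (N + 1)) ℂ[X])
    (hF : ∀ i, (F i).IsHomogeneous d) (x : Fin (N + 1) → ℂ[X])
    (G : κ → MvPolynomial (Fin (N + 1)) ℂ[X]) (e : κ → ℕ) (hG : ∀ k, (G k).IsHomogeneous (e k))
    (α : Fin M → ℂ) (hα : ∀ l, IsAlgebraic ℚ (α l))
    (hpre : ∀ l, Preperiodic (member F (α l)) (start x (α l)))
    (hR : {n : ℕ | ∀ l, n ∈ returns F x G (α l)}.Finite ∨
      ∃ l, EventuallyEtale (member F (α l)) (start x (α l)))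
    (q : ℕ) (b : ℂ) (c lam : Fin q → ℂ) (h : Nondegenerate b c lam)
    (hq : 2 ≤ q ∨ (q = 1 ∧ ∀ l, α l ≠ b)) :
    {ν : ℤ | ¬ Uniform F x G α (term b c lam ν)}.Finite := by
  classical
  have hc : ∀ i, IsAlgebraic ℚ (c i) ∧ c i ≠ 0 := fun i => ⟨h.alg_c i, h.c_ne i⟩
  have hl : ∀ i, IsAlgebraic ℚ (lam i) ∧ lam i ≠ 0 := fun i => ⟨h.alg_lam i, h.lam_ne i⟩
  have hq1 : 1 ≤ q := by rcases hq with h | ⟨h, -⟩ <;> omega
  have hfin := Run7.h383.DM.dml F hF x G e hG α hα hpre hR
    (Set.range (Pool.Agent.Run7.h866.ZP.term b c lam)) (by
      rintro _ ⟨ν, rfl⟩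
      refine mem_algebraicClosure_iff.1 (add_mem (mem_algebraicClosure_iff.2 h.alg_b)
        (sum_mem fun i _ => mul_mem (mem_algebraicClosure_iff.2 (h.alg_c i)) ?_))
      exact zpow_mem (mem_algebraicClosure_iff.2 (h.alg_lam i)) ν) ⊥ fun l =>
        Pool.Agent.Run7.h866.ZP.hits_term b c lam h.alg_b hc hl h.not_root h.not_quot (α l) (hα l)
          (by
            rcases hq with h2 | ⟨h2, h3⟩
            · exact Or.inl h2
            · exact Or.inr ⟨hq1, h3 l⟩)
  refine (hfin.biUnion (t := fun t => {ν : ℤ | Pool.Agent.Run7.h866.ZP.term b c lam ν = t})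
    fun t _ => Pool.Agent.Run7.h866.ZP.finite_fibre b c lam h.alg_b hc hl h.not_root h.not_quot
      hq1 t).subset ?_
  intro ν hν
  exact Set.mem_biUnion (x := Pool.Agent.Run7.h866.ZP.term b c lam ν) ⟨⟨ν, rfl⟩, hν⟩ rfl

end Pool.Agent.Results.MP_295d38_ag.LinearRecurrences
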