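import Pool.Agent.Run7.h823.WF.Quad
import Pool.Agent.Run7.h823.WF.Ex
import Pool.Agent.Results.MP_295d38_ag.QuadraticLinePowers

set_option autoImplicit false

/-!
# Dynamical Mordell-Lang for tuples of quadratic functions whose coefficients run through sparse families of vectors of
# residues: the first `m ^ ε` terms of linear recurrences modulo `m`

For a tuple `f_1, ..., f_k` of quadratic rational functions with the vector `v` of `6 k` integral coefficients and for all
`N`, `τ` and `σ` consider the map `(P_i) ↦ (f_(τ i) (P_(σ i)))` of `(ℙ^1)^N` (`qmap`). The vector `v = c₀ + y_i` runs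
through an arbitrary family `y_i`, `i ∈ s`, of vectors of residues modulo an integer `q` (represented by the least residues)
whose Fourier coefficients at the nonzero frequencies are at most `q ^ (-β)` times their number. For all but
`q ^ (-δ) |s|` members of the family, for ALL `N`, `τ`, `σ` the map is an endomorphism of `(ℙ^1)^N` with the full Dynamical
Mordell-Lang property (all complex points, all closed subvarieties over `ℂ`).

The family can be very sparse: examples (of vectors with `r` coordinates) are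

* the values `(u_1(n), …, u_r(n))`, `n < N`, of `r` linear recurrences modulo a prime `m` with linearly independent vectors
  of coefficients, as soon as `N ≥ m ^ ε` and the roots and their quotients have orders `≥ m ^ ε`;
* the vectors `(x_1 b_1 ^ n, …, x_r b_r ^ n)`, `n < N`, `N ≥ m ^ ε`, for fixed different integers `b_j ≥ 2` and
  all `x_j ≠ 0`, modulo all but `C X ^ ε` of the primes `m ≤ X`.

In these examples only `m ^ ε` of the `m ^ r` vectors of the box occur.

From Mathlib: `ZMod.stdAddChar`: the additive character `j ↦ exp (2 π i j / q)` of the integers modulo `q`; `ZMod.val`: the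
least residue.

In the starting results the coefficient vectors run through a box, or through the integer parts of generalised polynomials
(`ThinQuadraticTuples`).

Proof: the sieve of helper84 with `p`-adic interpolation (starting library) works for all sequences which are well
distributed modulo small integers; families with small Fourier coefficients are well distributed modulo all integers up to a power of `q`; the Fourier
coefficients of short recurrences are estimated by the method of Bourgain, Glibichuk and Konyagin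
(`Pool.Agent.Run7.h823.BK`).
-/

namespace Pool.Agent.Results.MP_295d38_ag.ResidueVectors

open Finset
open Pool.Agent.Results.MP_295d38_ag.QuadraticLinePowers (qmap DML Regular)

/-- The Fourier coefficients of the vectors of residues `y i`, `i ∈ s`, modulo `q` at the nonzero frequencies are at most
`η` times the number of the vectors: `|∑ i ∈ s, e(h·y_i / q)| ≤ η |s|` for all vectors `h ≠ 0` modulo `q`. -/
def Flat {τ ι : Type} [Fintype ι] (q : ℕ) [NeZero q] (η : ℝ) (s : Finset τ) (y : τ → ι → ZMod q) : Prop :=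
  ∀ h : ι → ZMod q, h ≠ 0 → ‖∑ i ∈ s, (ZMod.stdAddChar (∑ j, h j * y i j) : ℂ)‖ ≤ η * s.card

/-- The integral vector `c₀ + y_i`, with the least residues `0 ≤ y_i < q`. -/
def vec {τ ι : Type} {q : ℕ} (y : τ → ι → ZMod q) (c₀ : ι → ℤ) (i : τ) (j : ι) : ℤ := c₀ j + ((y i j).val : ℕ)

/-- **Theorem.** (1) For every `k ≥ 1` and `β > 0` there is `δ > 0` such that for all large `q`, all families `y_i`,
`i ∈ s`, of vectors of residues modulo `q` with `6 k` coordinates and Fourier coefficients at most `q ^ (-β) |s|`, and all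
integral vectors `c₀`: for all but at most `q ^ (-δ) |s|` of the members the tuple `f_1, ..., f_k` of quadratic functions
with the coefficients `c₀ + y_i` has the property that all maps `(P_i) ↦ (f_(τ i) (P_(σ i)))` of `(ℙ^1)^N`, `N` arbitrary,
are endomorphisms with the Dynamical Mordell-Lang property.

(2) Examples: short linear recurrences. (3) Examples: the first powers of fixed integers, modulo all but `C X ^ ε` of the
primes `m ≤ X`. -/
theorem result :
    (∀ (k : ℕ) (β : ℝ), 1 ≤ k → 0 < β → ∃ δ : ℝ, 0 < δ ∧ ∃ q₀ : ℕ, ∀ (q : ℕ) [NeZero q], q₀ ≤ q →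
      ∀ (τ' : Type) (s : Finset τ') (y : τ' → Fin k × Fin 2 × Fin 3 → ZMod q), Flat q ((q : ℝ) ^ (-β)) s y →
      ∀ c₀ : Fin k × Fin 2 × Fin 3 → ℤ,
      ({i : τ' | i ∈ s ∧ ¬ ∀ (N : ℕ) (τ : Fin N → Fin k) (σ : Fin N → Fin N),
        Regular (qmap τ σ (vec y c₀ i)) ∧ DML (qmap τ σ (vec y c₀ i))}.ncard : ℝ) ≤ (q : ℝ) ^ (-δ) * s.card) ∧
    (∀ (k : ℕ) (ε : ℝ), 0 < ε → ∃ β : ℝ, 0 < β ∧ ∃ m₀ : ℕ, ∀ (m : ℕ) [Fact m.Prime], m₀ ≤ m →
      ∀ (ι : Type) [Fintype ι] (c : ι → Fin k → ZMod m) (g : Fin k → (ZMod m)ˣ) (N : ℕ), LinearIndependent (ZMod m) c →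
      (∀ i, (m : ℝ) ^ ε ≤ orderOf (g i)) → (∀ i j, i ≠ j → (m : ℝ) ^ ε ≤ orderOf (g i / g j)) → (m : ℝ) ^ ε ≤ N →
      Flat m ((m : ℝ) ^ (-β)) (range N) (fun n j => ∑ i, c j i * (g i : ZMod m) ^ n)) ∧
    (∀ (ι : Type) [Fintype ι] (ε : ℝ), 0 < ε → ∃ β : ℝ, 0 < β ∧ ∀ b : ι → ℕ, (∀ j, 2 ≤ b j) → Function.Injective b →
      ∃ C : ℝ, ∀ X : ℕ, 1 ≤ X → ∀ Q : Finset ℕ,
      (∀ m ∈ Q, m ≤ X ∧ ∃ _ : Fact m.Prime, ¬ ∀ N : ℕ, (m : ℝ) ^ ε ≤ N → ∀ x : ι → ZMod m, (∀ j, x j ≠ 0) →
        Flat m ((m : ℝ) ^ (-β)) (range N) (fun n j => x j * (b j : ZMod m) ^ n)) →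
      (Q.card : ℝ) ≤ C * (X : ℝ) ^ ε) := by
  refine ⟨?_, fun k ε hε => Pool.Agent.Run7.h823.WF.flat_rec' k hε,
    fun ι _ ε hε => Pool.Agent.Run7.h823.WF.flat_pow' ι hε⟩
  intro k β hk hβ
  obtain ⟨δ, hδ, q₀, h⟩ := Pool.Agent.Run7.h823.WF.Quad.residues k hk hβ
  refine ⟨δ, hδ, q₀, fun q _ hq τ' s y hf c₀ => le_trans ?_ (h τ' q hq s y c₀ hf)⟩
  apply Pool.Agent.Run7.h823.WF.ncard_mono
  intro i _ hn hg
  exact hn fun N τ σ => Pool.Agent.Results.MP_295d38_ag.QuadraticLinePowers.main (vec y c₀ i) hg τ σ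

end Pool.Agent.Results.MP_295d38_ag.ResidueVectors
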