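import Pool.Agent.Run7.h316.EQ.Quad
import Pool.Agent.Run7.h316.EQ.Typ
import Pool.Agent.Results.MP_295d38_ag.QuadraticLinePowers

/-!
# Dynamical Mordell-Lang for tuples of quadratic functions with prime, equidistributed, metric or random coefficients

Let `c w`, `w ∈ Ω`, be a family of vectors in `ℤ ^ ι` (`ι` a finite set) and `S M ⊂ Ω` finite sets. `Usually`: for ALL
`k ≥ 1` and all `6 k` different coordinates of the vectors, which are the coefficients of quadratic rational functions
`f_1, …, f_k`, the proportion of the `w ∈ S M` for which the following is NOT true tends to zero, `M → ∞`: for ALL `N`,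
`τ` and `σ` the map `(P_i) ↦ (f_(τ i) (P_(σ i)))` is an endomorphism of `(ℙ^1)^N` with the full Dynamical Mordell-Lang
property (all complex points, all closed subvarieties over `ℂ`).

**Theorem.** The property `Usually` is robust (`Pool.Agent.Run7.h316.EQ.Robust`):

(1) All dominated families have it: there are `C`, `A`, `D` such that for all squarefree `q` prime to `D` at most the
proportion `C (q / φ(q)) ^ A q ^ (-n) + o(1)` of the `c w`, `w ∈ S M`, `n = |ι|`, is in a given class modulo `q`. (All
equidistributed sequences, along arbitrary sets of times, are dominated, and all their subfamilies of positive lower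
density.)
(2) - (4) Metric sequences: `(⌊f_{i,l}(x_i)⌋)_i` for Koksma sequences `f_{i,0}, f_{i,1}, …`, `(⌊a_{i,l} x_i⌋)_i` for
arbitrary sequences of different integers (or of real numbers with a gap) and `(⌊ξ_i x_i ^ (k_l)⌋)_i`, for almost all
`x`.
(5) Random orbits of groups of integral matrices of determinant one which generate `SL(ℤ/q)` for all `q` prime to some
number (all Zariski dense groups, possibly of infinite index).
(6) Generalised polynomials `(⌊∑_t a_{i,t} l ^ t⌋)_i` at the integers and at the primes `l` of `(M, 2M]`.
(7) PRIME COEFFICIENTS: the vectors of prime numbers `≤ M`. So for almost all sextuples of prime numbers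
`a, …, f ≤ M` the function `(a z² + b z + c) / (d z² + e z + f)` defines for all `N` and `σ` an endomorphism of
`(ℙ^1)^N` with the Dynamical Mordell-Lang property.

The starting results are about 100 percent of the vectors in large boxes (`QuadraticLinePowers`; the definitions of
`qmap`, `Regular`, `DML` and the theorem `main` of this file are used), and about generalised polynomials
(`ThinQuadraticTuples`, helper84: with a better bound for the exceptional set).

Proof. For a positive proportion of the residues modulo a large prime `p` all critical points of the `f_j` are rational and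
outside the images of the rational points (starting library TH838), and this implies the property by `p`-adic
interpolation. So the exceptional set is very null (`Pool.Agent.Run7.h316.EQ.VeryNull`): for all `D`, `η > 1` and `ε > 0`
there is a squarefree `q` prime to `D` with `q / φ(q) ≤ η` such that at most the proportion `ε` of the classes modulo `q`
contain elements of it. The families above almost avoid such sets. Metric sequences: `Pool.Agent.N24.KM` (helpers 24, 344,
617, 199, 764, 432, 286); random orbits: `Pool.Agent.N24.RW` (helpers 24, 123, 195, 300, 543, 765); generalised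
polynomials: `Pool.Agent.N666.TM` (helper666); `Pool.Agent.N918.EQ` (helper918); primes: the prime number theorem for
arithmetic progressions (helper923).
-/

set_option autoImplicit false

namespace Pool.Agent.Results.MP_295d38_ag.RobustQuadraticTuples

open MeasureTheory
open Pool.Agent.Run7.h316.EQ (StrongNull Robust)
open Pool.Agent.Results.MP_295d38_ag.QuadraticLinePowers (qmap DML Regular)

/-- For all `k ≥ 1` and all `6 k` different coordinates the proportion of the `w` in `S M` such that for some `N`, `τ`, `σ`
the map `(P_i) ↦ (f_(τ i) (P_(σ i)))` of `(ℙ^1)^N` has not the Dynamical Mordell-Lang property, where `f_1, …, f_k` are the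
quadratic functions whose coefficients are these coordinates of `c w`, tends to zero. -/
def Usually {ι : Type} (Ω : Type) (S : ℕ → Finset Ω) (c : Ω → ι → ℤ) : Prop :=
  ∀ k : ℕ, 1 ≤ k → ∀ l : Fin k × Fin 2 × Fin 3 → ι, Function.Injective l →
    ∀ ε : ℝ, 0 < ε → ∃ M₀ : ℕ, ∀ M : ℕ, M₀ ≤ M →
      (({w : Ω | w ∈ S M ∧ ¬ ∀ (N : ℕ) (τ : Fin N → Fin k) (σ : Fin N → Fin N),
        Regular (qmap τ σ fun q => c w (l q)) ∧
          DML (qmap τ σ fun q => c w (l q))}.ncard : ℕ) : ℝ) ≤ ε * (S M).card

/-- **Dynamical Mordell-Lang for tuples of quadratic functions with prime coefficients, for dominated families, metric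
sequences, random orbits and generalised polynomials.** -/
theorem result (ι : Type) [Fintype ι] [DecidableEq ι] [Nonempty ι] :
    Robust (Usually (ι := ι)) := by
  classical
  refine Pool.Agent.Run7.h316.EQ.robust_of _ fun X _ ν P Ω S c hc => ?_
  have h1 : ∀ᵐ x ∂ν, ∀ (k : ℕ) (l : Fin k × Fin 2 × Fin (2 + 1) → ι), 1 ≤ k →
      Function.Injective l → P x → Pool.Agent.Run7.h316.EQ.Rare S (c x)
        {v : ι → ℤ | ¬ Pool.Agent.N84.TS.GoodQ k fun q => v (l q)} := by
    rw [ae_all_iff]
    intro k
    rw [ae_all_iff]
    intro l
    by_cases hk : 1 ≤ k
    swap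
    · exact Filter.Eventually.of_forall fun x hk' => absurd hk' hk
    by_cases hl : Function.Injective l
    swap
    · exact Filter.Eventually.of_forall fun x _ hl' => absurd hl' hl
    have h2 := ((Pool.Agent.Run7.h316.EQ.veryNull_quad k hk).comap hl).strong
    filter_upwards [hc _ h2] with x hx _ _ hP
    exact hx hP
  filter_upwards [h1] with x hx hP k hk l hl ε hε
  obtain ⟨M₀, h2⟩ := hx k l hk hl hP ε hε
  refine ⟨M₀, fun M hM => le_trans ?_ (h2 M hM)⟩
  refine Nat.cast_le.2 (Set.ncard_le_ncard ?_ ((S M).finite_toSet.subset fun w hw => hw.1))
  rintro w ⟨hw1, hw2⟩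
  refine ⟨hw1, fun hg => hw2 fun N τ σ => ?_⟩
  exact Pool.Agent.Results.MP_295d38_ag.QuadraticLinePowers.main
    (fun q => c x w (l q)) hg τ σ

end Pool.Agent.Results.MP_295d38_ag.RobustQuadraticTuples
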